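import Pool.Agent.helper74.MQ.Spec
import Pool.Agent.helper70.MP.NOSL

/-! # Project mq, module SYM: elementary operations on strips -/

set_option autoImplicit false

open Complex Metric Set Filter Topology MeasureTheory MPS

noncomputable section

namespace MQ

section
variable {k : ℕ} [NeZero k]

theorem SYM_HP {w : ℂ} : w ∈ HP 0 ↔ w.re < 0 := by
  unfold HP
  simp

theorem SYM_open (y₁ y₂ : ℝ) : IsOpen {w : ℂ | y₁ < w.im ∧ w.im < y₂} :=
  (isOpen_lt continuous_const Complex.continuous_im).inter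
    (isOpen_lt Complex.continuous_im continuous_const)

/-- `hat ψ` is natural on the half plane -/
theorem SYM_hat (hNH : NH_stmt) {b g : ZMod k → ℂ} {i : ZMod k} {ψ : ℂ → ℂ} (h : PN b g i ψ 1) :
    IsNat b g (hat ψ) (HP 0) := by
  refine NOSL_mono (hNH k b g i ψ 1 h).1 ?_
  intro w hw
  rw [SYM_HP] at hw
  show w.re < Real.log 1
  rw [Real.log_one]
  exact hw

/-- reflection of a natural map -/
theorem SYM_refl {b g : ZMod k → ℂ} {χ : ℂ → ℂ} {Ω : Set ℂ} (h : IsNat b g χ Ω) (S : ℂ) :
    IsNat b g (fun w => χ (S - w)) {w | S - w ∈ Ω} := by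
  refine ⟨?_, fun w hw => h.av (S - w) hw, ?_⟩
  · exact h.diff.comp (differentiable_id.const_sub S).differentiableOn (fun w hw => hw)
  · intro w hw
    rw [deriv_comp_const_sub, neg_sq]
    exact h.eq (S - w) hw

/-- the glued map on the union of the half plane and the strip -/
theorem SYM_glue (hNH : NH_stmt) {b g : ZMod k → ℂ} {i : ZMod k} {ψ ψ' χ : ℂ → ℂ} {S : ℂ}
    {y₁ y₂ : ℝ} (hψ : PN b g i ψ 1) (h : IsStrip b g ψ ψ' S y₁ y₂ χ) :
    IsNat b g (fun w => if w.re < 0 then hat ψ w else χ w)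
      (HP 0 ∪ {w | y₁ < w.im ∧ w.im < y₂}) ∧
    EqOn (fun w => if w.re < 0 then hat ψ w else χ w) (hat ψ) (HP 0) := by
  constructor
  · refine NOSL_local ?_
    intro w hw
    by_cases hwr : w.re < 0
    · refine ⟨hat ψ, HP 0, NOSL_open_HP, SYM_HP.2 hwr, SYM_hat hNH hψ, ?_⟩
      filter_upwards [NOSL_open_HP.mem_nhds (SYM_HP.2 hwr)] with z hz
      rw [if_pos (SYM_HP.1 hz)]
    · have hws : w ∈ {w : ℂ | y₁ < w.im ∧ w.im < y₂} := by
        rcases hw with hw | hw
        · exact absurd (SYM_HP.1 hw) hwr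
        · exact hw
      refine ⟨χ, {w | y₁ < w.im ∧ w.im < y₂}, SYM_open y₁ y₂, hws, h.nat, ?_⟩
      filter_upwards [(SYM_open y₁ y₂).mem_nhds hws] with z hz
      by_cases hzr : z.re < 0
      · rw [if_pos hzr, h.left z hz.1 hz.2 hzr]
      · rw [if_neg hzr]
  · intro w hw
    show (if w.re < 0 then hat ψ w else χ w) = hat ψ w
    rw [if_pos (SYM_HP.1 hw)]

theorem SYM_hat2 (ψ : ℂ → ℂ) (m : ℤ) (w : ℂ) : hat ψ (w + 2 * Real.pi * I * m) = hat ψ w := by
  unfold hat
  congr 1
  have h : (2 * Real.pi * I * m : ℂ) = (m : ℂ) * (2 * Real.pi * I) := by ring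
  rw [h, Complex.exp_add, Complex.exp_int_mul_two_pi_mul_I, mul_one]

end

theorem SYM (hNH : NH_stmt) : SYM_stmt := by
  intro k _ b g i l ψ ψ' hψ hψ' S y₁ y₂ ⟨χ, hχ⟩
  refine ⟨?_, ?_, ?_, ?_, ?_⟩
  · refine ⟨fun w => χ (S - w), ?_, ?_, ?_⟩
    · refine NOSL_mono (SYM_refl hχ.nat S) ?_
      intro w hw
      have h1 : (S - w).im = S.im - w.im := by simp
      show y₁ < (S - w).im ∧ (S - w).im < y₂
      rw [h1]
      exact ⟨by linarith [hw.2], by linarith [hw.1]⟩
    · intro w h1 h2 h3
      have e1 : (S - w).im = S.im - w.im := by simp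
      have e2 : (S - w).re = S.re - w.re := by simp
      have := hχ.right (S - w) (by rw [e1]; linarith) (by rw [e1]; linarith)
        (by rw [e2]; linarith)
      show χ (S - w) = _
      rw [this, sub_sub_cancel]
    · intro w h1 h2 h3
      have e1 : (S - w).im = S.im - w.im := by simp
      have e2 : (S - w).re = S.re - w.re := by simp
      exact hχ.left (S - w) (by rw [e1]; linarith) (by rw [e1]; linarith)
        (by rw [e2]; linarith)
  · intro m
    have eS : (S + 2 * Real.pi * I * m).re = S.re := by simp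
    have hr : ∀ w : ℂ, hat ψ' (S + 2 * Real.pi * I * m - w) = hat ψ' (S - w) := by
      intro w
      have : S + 2 * Real.pi * I * m - w = (S - w) + 2 * Real.pi * I * m := by ring
      rw [this, SYM_hat2]
    refine ⟨⟨χ, hχ.nat, hχ.left, ?_⟩, ⟨fun w => χ (w + (-(2 * Real.pi * I * m))), ?_, ?_, ?_⟩⟩
    · intro w h1 h2 h3
      rw [hr]
      rw [eS] at h3
      exact hχ.right w h1 h2 h3
    · refine NOSL_mono (NOSL_shift hχ.nat _) ?_
      intro w hw
      have e1 : (w + (-(2 * Real.pi * I * m))).im = w.im - m * (2 * Real.pi) := by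
        simp; ring
      show y₁ < (w + (-(2 * Real.pi * I * m))).im ∧ (w + (-(2 * Real.pi * I * m))).im < y₂
      rw [e1]
      exact ⟨by linarith [hw.1], by linarith [hw.2]⟩
    · intro w h1 h2 h3
      have e1 : (w + (-(2 * Real.pi * I * m))).im = w.im - m * (2 * Real.pi) := by
        simp; ring
      have e2 : (w + (-(2 * Real.pi * I * m))).re = w.re := by simp
      have := hχ.left (w + (-(2 * Real.pi * I * m))) (by rw [e1]; linarith)
        (by rw [e1]; linarith) (by rw [e2]; exact h3)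
      show χ (w + (-(2 * Real.pi * I * m))) = _
      rw [this, ← SYM_hat2 ψ m (w + (-(2 * Real.pi * I * m)))]
      congr 1
      ring
    · intro w h1 h2 h3
      rw [eS] at h3
      have e1 : (w + (-(2 * Real.pi * I * m))).im = w.im - m * (2 * Real.pi) := by
        simp; ring
      have e2 : (w + (-(2 * Real.pi * I * m))).re = w.re := by simp
      have := hχ.right (w + (-(2 * Real.pi * I * m))) (by rw [e1]; linarith)
        (by rw [e1]; linarith) (by rw [e2]; exact h3)
      show χ (w + (-(2 * Real.pi * I * m))) = _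
      rw [this]
      congr 1
      ring
  · intro y₁' y₂' h1 h2
    refine ⟨χ, NOSL_mono hχ.nat ?_, ?_, ?_⟩
    · intro w hw
      exact ⟨h1.trans_lt hw.1, hw.2.trans_le h2⟩
    · intro w a1 a2 a3
      exact hχ.left w (h1.trans_lt a1) (a2.trans_le h2) a3
    · intro w a1 a2 a3
      exact hχ.right w (h1.trans_lt a1) (a2.trans_le h2) a3
  · intro y t h1 h2
    unfold Slit
    rw [not_not]
    obtain ⟨hn, he⟩ := SYM_glue hNH hψ hχ
    refine ⟨min (y - y₁) (y₂ - y), lt_min (by linarith) (by linarith), _, NOSL_mono hn ?_, he⟩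
    rintro w (hw | hw)
    · exact Or.inl hw
    · refine Or.inr ?_
      have h3 := hw.1
      rw [abs_lt] at h3
      have h4 := min_le_left (y - y₁) (y₂ - y)
      have h5 := min_le_right (y - y₁) (y₂ - y)
      exact ⟨by linarith [h3.1], by linarith [h3.2]⟩
  · intro y r hr h1 h2
    obtain ⟨hn, he⟩ := SYM_glue hNH hψ hχ
    refine ⟨_, NOSL_mono hn ?_, he⟩
    rintro w (hw | hw)
    · exact Or.inl hw
    · refine Or.inr ?_
      rw [mem_ball, dist_eq_norm] at hw
      have e1 : (w - (y : ℂ) * I).im = w.im - y := by simp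
      have h3 : |w.im - y| < r := by
        rw [← e1]
        exact lt_of_le_of_lt (Complex.abs_im_le_norm _) hw
      rw [abs_lt] at h3
      exact ⟨by linarith [h3.1], by linarith [h3.2]⟩

end MQ
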