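import Pool.Agent.helper74.MQ.Spec

/-! # Project mq, module FOLD: no strip is folded onto itself -/

set_option autoImplicit false

open Complex Metric Set Filter Topology MeasureTheory MPS

noncomputable section

namespace MQ

theorem FOLD_convex (y e : ℝ) : Convex ℝ {w : ℂ | |w.im - y| < e} := by
  have h3 : {w : ℂ | |w.im - y| < e} = Complex.imLm ⁻¹' (Ioo (y - e) (y + e)) := by
    ext z
    simp only [mem_ofPred_eq, mem_preimage, mem_Ioo, abs_lt, Complex.imLm_coe]
    constructor
    · rintro ⟨a1, a2⟩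
      exact ⟨by linarith, by linarith⟩
    · rintro ⟨a1, a2⟩
      exact ⟨by linarith, by linarith⟩
  rw [h3]
  exact (convex_Ioo _ _).linear_preimage _

theorem FOLD : FOLD_stmt := by
  intro k _ b g i ψ hψ S y₁ y₂ h1 h2 ⟨χ, hχ⟩
  obtain ⟨e, he⟩ : ∃ e, e = min (S.im / 2 - y₁) (y₂ - S.im / 2) := ⟨_, rfl⟩
  have he0 : 0 < e := by
    rw [he]
    exact lt_min (by linarith) (by linarith)
  have he1 : e ≤ S.im / 2 - y₁ := by rw [he]; exact min_le_left _ _
  have he2 : e ≤ y₂ - S.im / 2 := by rw [he]; exact min_le_right _ _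
  obtain ⟨U, hU⟩ : ∃ U : Set ℂ, U = {w : ℂ | |w.im - S.im / 2| < e} := ⟨_, rfl⟩
  have hUo : IsOpen U := by
    rw [hU]
    exact isOpen_lt ((Complex.continuous_im.sub continuous_const).abs) continuous_const
  have hUs : U ⊆ {w : ℂ | y₁ < w.im ∧ w.im < y₂} := by
    intro w hw
    rw [hU] at hw
    have hw' : |w.im - S.im / 2| < e := hw
    rw [abs_lt] at hw'
    exact ⟨by linarith [hw'.1], by linarith [hw'.2]⟩
  have hUr : ∀ w ∈ U, S - w ∈ U := by
    intro w hw
    rw [hU] at hw ⊢
    have hw' : |w.im - S.im / 2| < e := hw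
    show |(S - w).im - S.im / 2| < e
    have : (S - w).im - S.im / 2 = -(w.im - S.im / 2) := by
      rw [Complex.sub_im]; ring
    rw [this, abs_neg]
    exact hw'
  have hUc : Convex ℝ U := by
    rw [hU]
    exact FOLD_convex _ _
  have hd1 : DifferentiableOn ℂ χ U := hχ.nat.diff.mono hUs
  have hd2 : DifferentiableOn ℂ (fun w => χ (S - w)) U :=
    hd1.comp (differentiable_id.const_sub S).differentiableOn hUr
  -- a point far to the right
  obtain ⟨w₀, hw₀⟩ : ∃ w₀ : ℂ, w₀ = ((|S.re| + 1 : ℝ) : ℂ) + ((S.im / 2 : ℝ) : ℂ) * I := ⟨_, rfl⟩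
  have hw₀r : w₀.re = |S.re| + 1 := by rw [hw₀]; simp
  have hw₀i : w₀.im = S.im / 2 := by rw [hw₀]; simp
  have hw₀U : w₀ ∈ U := by
    rw [hU]
    show |w₀.im - S.im / 2| < e
    rw [hw₀i, sub_self, abs_zero]
    exact he0
  have hev : χ =ᶠ[𝓝 w₀] fun w => χ (S - w) := by
    have ho : IsOpen {w : ℂ | S.re < w.re} := isOpen_lt continuous_const Complex.continuous_re
    have hm : w₀ ∈ {w : ℂ | S.re < w.re} := by
      show S.re < w₀.re
      rw [hw₀r]
      have := le_abs_self S.re
      linarith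
    filter_upwards [hUo.mem_nhds hw₀U, ho.mem_nhds hm] with w hw hwr
    have h3 := hUs hw
    have h4 := hUs (hUr w hw)
    have h5 : S.re < w.re := hwr
    rw [hχ.right w h3.1 h3.2 h5, hχ.left (S - w) h4.1 h4.2 (by rw [Complex.sub_re]; linarith)]
  have heq := (hd1.analyticOnNhd hUo).eqOn_of_preconnected_of_eventuallyEq
    (hd2.analyticOnNhd hUo) hUc.isPreconnected hw₀U hev
  have hmid : S / 2 ∈ U := by
    rw [hU]
    show |(S / 2).im - S.im / 2| < e
    have : (S / 2).im = S.im / 2 := by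
      simp
    rw [this, sub_self, abs_zero]
    exact he0
  have hev2 : χ =ᶠ[𝓝 (S / 2)] fun w => χ (S - w) := by
    filter_upwards [hUo.mem_nhds hmid] with w hw
    exact heq hw
  have hder := hev2.deriv_eq
  rw [deriv_comp_const_sub] at hder
  have e3 : S - S / 2 = S / 2 := by ring
  rw [e3] at hder
  have h0 : deriv χ (S / 2) = 0 := by
    have h6 : (2 : ℂ) * deriv χ (S / 2) = 0 := by linear_combination hder
    rcases mul_eq_zero.1 h6 with h7 | h7
    · exact absurd h7 two_ne_zero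
    · exact h7
  have h8 := hχ.nat.eq (S / 2) (hUs hmid)
  rw [h0] at h8
  norm_num at h8

end MQ
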