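import Pool.Agent.helper74.MQ.Spec
import Pool.Agent.helper70.MP.NOSL

/-! # Project mq, module HPER: periodicity of the critical directions -/

set_option autoImplicit false

open Complex Metric Set Filter Topology MeasureTheory MPS

noncomputable section

namespace MQ

theorem HPER : HPER_stmt := by
  intro k _ b g ψ y T ζ m h r a m' ⟨χ, Ω, ho, hHP, hleft, hray, hnat, heq, hev⟩
  obtain ⟨v, hv⟩ : ∃ v : ℝ, v = ((-m' : ℤ) : ℝ) * (2 * Real.pi) := ⟨_, rfl⟩
  have hvv : (v : ℂ) = -((m' : ℂ) * (2 * Real.pi)) := by rw [hv]; push_cast; ring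
  have key : ∀ t : ℝ, ((t : ℂ) + ((y + m' * (2 * Real.pi) : ℝ) : ℂ) * I) + (v : ℂ) * I =
      (t : ℂ) + y * I := by
    intro t
    rw [hvv]
    push_cast
    ring
  refine ⟨fun w => χ (w + (v : ℂ) * I), {w | w + (v : ℂ) * I ∈ Ω}, ?_, ?_, ?_, ?_,
    NOSL_shift hnat _, ?_, ?_⟩
  · exact ho.preimage (continuous_id.add continuous_const)
  · intro w hw
    exact hHP ((NOSL_HP _ w).2 hw)
  · intro w hw s hs
    show w - s + (v : ℂ) * I ∈ Ω
    have : w - s + (v : ℂ) * I = (w + (v : ℂ) * I) - s := by ring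
    rw [this]
    exact hleft _ hw s hs
  · intro t ht
    show (t : ℂ) + ((y + m' * (2 * Real.pi) : ℝ) : ℂ) * I + (v : ℂ) * I ∈ Ω
    rw [key]
    exact hray t ht
  · intro w hw
    show χ (w + (v : ℂ) * I) = hat ψ w
    rw [heq ((NOSL_HP _ w).2 hw), hv, NOSL_hat]
  · filter_upwards [hev] with t ht
    show χ ((t : ℂ) + ((y + m' * (2 * Real.pi) : ℝ) : ℂ) * I + (v : ℂ) * I) ∈ ball ζ r ∧
      h (χ ((t : ℂ) + ((y + m' * (2 * Real.pi) : ℝ) : ℂ) * I + (v : ℂ) * I)) = _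
    rw [key]
    exact ht

end MQ
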