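import Pool.Agent.helper74.MQ.Spec

/-! # Project mq, module PHW: Phase 2 as a black box -/

set_option autoImplicit false

open Complex Metric Set Filter Topology MeasureTheory MPS

namespace MQ

theorem PHW (hNG : NG_stmt) (hNGF : NGF_stmt) (hND : ND_stmt) (hTBD : TBD_stmt)
    (hPH1 : PH1_stmt) (hPH2 : PH2_stmt) : PHW_stmt := by
  intro n ρ₁ hn hρpos h16
  obtain ⟨δ, hδ⟩ : ∃ δ, δ = ρ₁ / 64 := ⟨_, rfl⟩
  have hδpos : 0 < δ := by rw [hδ]; positivity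
  have hδ20 : δ ≤ 1 / 20 := by
    rw [hδ]
    linarith
  obtain ⟨R₁, hR₁4, hR₁⟩ := hNG δ hδpos
  obtain ⟨R₂, hR₂4, hR₂⟩ := hNGF (16 * ρ₁) (by positivity) h16
  refine ⟨max R₁ R₂, hR₁4.trans (le_max_left _ _), min (δ ^ 3 / 10 ^ 16) (ρ₁ ^ 2 / 4 ^ 200),
    lt_min (by positivity) (by positivity), ?_⟩
  intro k _ c b g ψ R ε su hR hε y χ hnat hext
  have hRR₁ : R₁ ≤ R := (le_max_left _ _).trans hR
  have hRR₂ : R₂ ≤ R := (le_max_right _ _).trans hR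
  have hε1 := hε.trans (min_le_left _ _)
  have hε2 := hε.trans (min_le_right _ _)
  have hb4 : ∀ j, ‖b j‖ ≤ 4 := fun j => ((hTBD n c su.hn su.hc).2.2 k b su.cyc j).le
  have hmp0 : MapsTo (ψ 0) (ball 0 (Real.exp (-δ))) (ball 0 R) := by
    intro u hu
    rw [mem_ball_zero_iff] at hu ⊢
    exact (hR₁ k b g 0 (ψ 0) su.hk su.cyc.inj hb4 (su.mx 0).pn u hu.le).trans_le hRR₁
  obtain ⟨G1, hG1⟩ := hPH1 n k c b g ψ R ε δ su hδpos hδ20 hmp0 hε1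
  have hmp1 : MapsTo χ (ball ((y : ℂ) * I) ρ₁) (ball 0 R) := by
    intro w hw
    rw [mem_ball_zero_iff]
    refine (hR₂ k b g 0 (ψ 0) χ y su.hk su.cyc.inj hb4 (su.mx 0).pn hnat hext w ?_).trans_le hRR₂
    have e : 16 * ρ₁ / 16 = ρ₁ := by ring
    rw [e]
    exact hw
  obtain ⟨ps, hps⟩ : ∃ ps : ℕ, ∀ p : ℕ, 1 ≤ p → p < k →
      χ ((y : ℂ) * I + 6 * ρ₁) ∈ ψ (-(p : ZMod k)) '' ball 0 1 → p = ps := by
    by_cases hex : ∃ p : ℕ, 1 ≤ p ∧ p < k ∧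
        χ ((y : ℂ) * I + 6 * ρ₁) ∈ ψ (-(p : ZMod k)) '' ball 0 1
    · obtain ⟨ps, hp1, hp2, hp3⟩ := hex
      refine ⟨ps, fun p hq1 hq2 hq3 => ?_⟩
      by_contra hne
      have hne' : (-(p : ZMod k)) ≠ -(ps : ZMod k) := by
        intro h
        rw [neg_inj, ZMod.natCast_eq_natCast_iff'] at h
        rw [Nat.mod_eq_of_lt hq2, Nat.mod_eq_of_lt hp2] at h
        exact hne h
      have hd := hND k b g _ _ (ψ (-(p : ZMod k))) (ψ (-(ps : ZMod k))) su.cyc.inj hne'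
        (su.mx _) (su.mx _)
      exact Set.disjoint_left.mp hd hq3 hp3
    · exact ⟨0, fun p hq1 hq2 hq3 => absurd ⟨p, hq1, hq2, hq3⟩ hex⟩
  have su2 : SU2 n k c b g ψ R ε y ρ₁ χ G1 ps := by
    refine ⟨su, hρpos, h16, hnat, hext, ?_, hmp1, ?_, hps⟩
    · rw [← hδ]
      exact hmp0
    · rw [← hδ]
      exact hG1
  obtain ⟨r, G, hH2⟩ := hPH2 n k c b g ψ R ε y ρ₁ χ G1 ps su2 hε2
  exact ⟨ps, G1, r, G, hH2⟩

end MQ
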